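import Pool.Agent.N874.PP.Lat

/-!
# The lattice `I` with `I ^ 2 = α O` and its duality

Part PP-SD of project PP (helper874), written by helper169.
-/

set_option autoImplicit false
set_option linter.all false

open Polynomial IsDedekindDomain nonZeroDivisors
open scoped Classical

namespace Pool.Agent.N169.PP

open Pool.Agent.N874.PP

section ded

variable {O L : Type} [CommRing O] [IsDedekindDomain O] [Field L] [Algebra O L] [IsFractionRing O L]

/-- The valuation in terms of the factorisation of the principal fractional ideal. -/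
theorem val_eq (v : HeightOneSpectrum O) (x : L) (hx : x ≠ 0) :
    v.valuation L x = WithZero.exp (-(FractionalIdeal.count L v (FractionalIdeal.spanSingleton O⁰ x))) := by
  obtain ⟨n, d, hnd⟩ := IsLocalization.exists_mk'_eq O⁰ x
  have hd : (d : O) ≠ 0 := nonZeroDivisors.ne_zero d.2
  have hn : n ≠ 0 := by
    rintro rfl
    apply hx
    rw [← hnd, IsLocalization.mk'_zero]
  have h0 : FractionalIdeal.spanSingleton O⁰ x ≠ 0 := by
    rwa [ne_eq, FractionalIdeal.spanSingleton_eq_zero_iff]
  have hI : FractionalIdeal.spanSingleton O⁰ x =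
      FractionalIdeal.spanSingleton O⁰ ((algebraMap O L) d)⁻¹ * ((Ideal.span {n} : Ideal O) : FractionalIdeal O⁰ L) := by
    rw [FractionalIdeal.coeIdeal_span_singleton, FractionalIdeal.spanSingleton_mul_spanSingleton]
    apply congr_arg
    rw [← hnd, IsFractionRing.mk'_eq_div, div_eq_mul_inv, mul_comm]
  rw [FractionalIdeal.count_well_defined L v h0 hI, ← hnd, HeightOneSpectrum.valuation_of_mk',
    HeightOneSpectrum.intValuation_if_neg v hn, HeightOneSpectrum.intValuation_if_neg v hd,
    ← WithZero.exp_sub]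
  congr 1
  ring

/-- An element with even valuations generates the square of a fractional ideal. -/
theorem exists_sqrt (α : L) (hα : α ≠ 0) (h : ∀ 𝔓 : HeightOneSpectrum O, Ev 𝔓 α) :
    ∃ I : FractionalIdeal O⁰ L, I ≠ 0 ∧ I * I = FractionalIdeal.spanSingleton O⁰ α := by
  have h0 : FractionalIdeal.spanSingleton O⁰ α ≠ 0 := by
    rwa [ne_eq, FractionalIdeal.spanSingleton_eq_zero_iff]
  set J := FractionalIdeal.spanSingleton O⁰ α with hJ
  have hev : ∀ v : HeightOneSpectrum O, ∃ c : ℤ, FractionalIdeal.count L v J = c + c := by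
    intro v
    obtain ⟨y, hy⟩ := h v
    have hy0 : y ≠ 0 := by
      rintro rfl
      rw [map_zero, zero_pow two_ne_zero, Valuation.zero_iff] at hy
      exact hα hy
    rw [val_eq v α hα, val_eq v y hy0, ← WithZero.exp_nsmul, WithZero.exp_inj] at hy
    refine ⟨FractionalIdeal.count L v (FractionalIdeal.spanSingleton O⁰ y), ?_⟩
    have : (2 : ℕ) • -(FractionalIdeal.count L v (FractionalIdeal.spanSingleton O⁰ y)) =
      -(FractionalIdeal.count L v (FractionalIdeal.spanSingleton O⁰ y) +
        FractionalIdeal.count L v (FractionalIdeal.spanSingleton O⁰ y)) := by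
      rw [two_nsmul]; ring
    rw [this] at hy
    exact neg_injective hy
  choose c hc using hev
  have hfin : ∀ᶠ v : HeightOneSpectrum O in Filter.cofinite, c v = 0 := by
    filter_upwards [FractionalIdeal.finite_factors (K := L) J] with v hv
    have := hc v
    omega
  have hsupp : (Function.mulSupport fun v : HeightOneSpectrum O =>
      (v.asIdeal : FractionalIdeal O⁰ L) ^ c v).Finite := by
    refine Set.Finite.subset hfin ?_
    intro v hv
    simp only [Function.mem_mulSupport] at hv
    intro h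
    apply hv
    have h' : c v = 0 := h
    rw [h', zpow_zero]
  refine ⟨∏ᶠ v : HeightOneSpectrum O, (v.asIdeal : FractionalIdeal O⁰ L) ^ c v, ?_, ?_⟩
  · intro h1
    have h2 : (∏ᶠ v : HeightOneSpectrum O, (v.asIdeal : FractionalIdeal O⁰ L) ^ c v) *
      (∏ᶠ v : HeightOneSpectrum O, (v.asIdeal : FractionalIdeal O⁰ L) ^ c v) = J := by
      rw [← finprod_mul_distrib hsupp hsupp, ← FractionalIdeal.finprod_heightOneSpectrum_factorization' L h0]
      apply finprod_congr
      intro v
      rw [← zpow_add₀ (FractionalIdeal.coeIdeal_ne_zero.mpr v.ne_bot), hc v]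
    rw [h1, zero_mul] at h2
    exact h0 h2.symm
  · rw [← finprod_mul_distrib hsupp hsupp, ← FractionalIdeal.finprod_heightOneSpectrum_factorization' L h0]
    apply finprod_congr
    intro v
    rw [← zpow_add₀ (FractionalIdeal.coeIdeal_ne_zero.mpr v.ne_bot), hc v]

end ded

/-- The ring of integers is finite over `k[X]`. -/
theorem fin_O (hI : S_INT) (k K L O : Type) [Field k] [Field K] [Algebra k[X] K] [IsFractionRing k[X] K]
    [Field L] [Algebra K L] [Algebra k[X] L] [IsScalarTower k[X] K L] [CommRing O]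
    [IsDedekindDomain O] [Algebra O L] [IsFractionRing O L] [Algebra k[X] O]
    [IsScalarTower k[X] O L] [IsIntegralClosure O k[X] L] (a b : k[X]) (θ : L)
    (h6 : (6 : k) ≠ 0) (hc : IsCub K a b θ) (hs : Squarefree (dsc a b)) :
    (∃ θ' : O, algebraMap O L θ' = θ) ∧ Module.Finite k[X] O := by
  have hinj : Function.Injective (algebraMap O L) := IsFractionRing.injective O L
  have hθ : IsIntegral k[X] θ := (hI k K L a b θ h6 hc hs θ).2 ⟨![0, 1, 0], by simp [Crd]⟩
  obtain ⟨θ', hθ'⟩ := (IsIntegralClosure.isIntegral_iff (A := O)).1 hθ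
  refine ⟨⟨θ', hθ'⟩, ⟨⟨{1, θ', θ' ^ 2}, ?_⟩⟩⟩
  rw [eq_top_iff]
  intro x _
  have hx : IsIntegral k[X] (algebraMap O L x) := (IsIntegralClosure.isIntegral_iff (A := O)).2 ⟨x, rfl⟩
  obtain ⟨v, hv⟩ := (hI k K L a b θ h6 hc hs _).1 hx
  have : x = v 0 • (1 : O) + v 1 • θ' + v 2 • θ' ^ 2 := by
    apply hinj
    rw [hv]
    simp only [Algebra.smul_def, map_add, map_mul, map_pow, hθ', ← IsScalarTower.algebraMap_apply, map_one, mul_one]
  rw [this]
  have h1 : (1 : O) ∈ Submodule.span k[X] (({1, θ', θ' ^ 2} : Finset O) : Set O) :=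
    Submodule.subset_span (by simp)
  have h2 : θ' ∈ Submodule.span k[X] (({1, θ', θ' ^ 2} : Finset O) : Set O) :=
    Submodule.subset_span (by simp)
  have h3 : θ' ^ 2 ∈ Submodule.span k[X] (({1, θ', θ' ^ 2} : Finset O) : Set O) :=
    Submodule.subset_span (by simp)
  exact Submodule.add_mem _ (Submodule.add_mem _ (Submodule.smul_mem _ _ h1) (Submodule.smul_mem _ _ h2))
    (Submodule.smul_mem _ _ h3)

/-- A basis of a fractional ideal over `k[X]`. -/
theorem basis_I (hI : S_INT) (k K L O : Type) [Field k] [Field K] [Algebra k[X] K] [IsFractionRing k[X] K]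
    [Field L] [Algebra K L] [Algebra k[X] L] [IsScalarTower k[X] K L] [CommRing O]
    [IsDedekindDomain O] [Algebra O L] [IsFractionRing O L] [Algebra k[X] O]
    [IsScalarTower k[X] O L] [IsIntegralClosure O k[X] L] (a b : k[X]) (θ : L)
    (h6 : (6 : k) ≠ 0) (hc : IsCub K a b θ) (hs : Squarefree (dsc a b))
    (I : FractionalIdeal O⁰ L) (h0 : I ≠ 0) :
    ∃ e : Fin 3 → L, LinearIndependent K e ∧ (∀ i, e i ∈ I) ∧
      ∀ y ∈ I, ∃ c : Fin 3 → k[X], y = ∑ i, algebraMap k[X] L (c i) * e i := by
  obtain ⟨⟨θ', hθ'⟩, hfin⟩ := fin_O hI k K L O a b θ h6 hc hs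
  have hinjL : Function.Injective (algebraMap k[X] L) := by
    rw [IsScalarTower.algebraMap_eq k[X] K L]
    exact (algebraMap K L).injective.comp (IsFractionRing.injective k[X] K)
  set M : Submodule k[X] L := (I : Submodule O L).restrictScalars k[X] with hM
  have hmem : ∀ y : L, y ∈ M ↔ y ∈ I := fun y => Iff.rfl
  haveI : IsNoetherian O (I : Submodule O L) := FractionalIdeal.isNoetherian I
  haveI : Module.Finite O (I : Submodule O L) := inferInstance
  haveI h2 : Module.Finite k[X] (I : Submodule O L) := Module.Finite.trans O _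
  haveI h3 : Module.Finite k[X] M := h2
  haveI : Module.IsTorsionFree k[X] L := by
    refine ⟨fun r hr => ?_⟩
    intro x y hxy
    have hr0 : r ≠ 0 := hr.ne_zero
    simp only [Algebra.smul_def] at hxy
    exact mul_left_cancel₀ (by rwa [ne_eq, map_eq_zero_iff _ hinjL]) hxy
  haveI : Module.IsTorsionFree k[X] M := inferInstance
  haveI : Module.Free k[X] M := inferInstance
  let B := Module.Free.chooseBasis k[X] M
  have hli : LinearIndependent k[X] (fun i => (B i : L)) :=
    B.linearIndependent.map' M.subtype (Submodule.ker_subtype M)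
  have hliK : LinearIndependent K (fun i => (B i : L)) :=
    (LinearIndependent.iff_fractionRing k[X] K).1 hli
  have hsum : ∀ y ∈ I, ∃ c : Module.Free.ChooseBasisIndex k[X] M → k[X],
      y = ∑ i, algebraMap k[X] L (c i) * (B i : L) := by
    intro y hy
    have hy' : y ∈ M := (hmem y).2 hy
    refine ⟨fun i => B.repr ⟨y, hy'⟩ i, ?_⟩
    have h4 := congrArg (Subtype.val) (B.sum_repr ⟨y, hy'⟩)
    have h5 : ((∑ i, (B.repr ⟨y, hy'⟩) i • B i : M) : L) =
        ∑ i, algebraMap k[X] L (B.repr ⟨y, hy'⟩ i) * (B i : L) := by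
      rw [Submodule.coe_sum]
      refine Finset.sum_congr rfl fun i _ => ?_
      rw [Submodule.coe_smul, Algebra.smul_def]
    exact h4.symm.trans h5
  have hspanI : ∀ y ∈ I, y ∈ Submodule.span K (Set.range fun i => (B i : L)) := by
    intro y hy
    obtain ⟨c, hc'⟩ := hsum y hy
    rw [hc']
    refine Submodule.sum_mem _ fun i _ => ?_
    rw [IsScalarTower.algebraMap_apply k[X] K L, ← Algebra.smul_def]
    exact Submodule.smul_mem _ _ (Submodule.subset_span ⟨i, rfl⟩)
  obtain ⟨y, hy, hy0⟩ : ∃ y ∈ I, y ≠ 0 := by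
    by_contra hcon
    push Not at hcon
    apply h0
    rw [FractionalIdeal.eq_zero_iff]
    exact hcon
  have hθy : θ * y ∈ I := by
    rw [← hθ', ← Algebra.smul_def]
    exact Submodule.smul_mem (I : Submodule O L) θ' hy
  have hθ2y : θ ^ 2 * y ∈ I := by
    rw [← hθ', ← map_pow, ← Algebra.smul_def]
    exact Submodule.smul_mem (I : Submodule O L) (θ' ^ 2) hy
  have hspan : ⊤ ≤ Submodule.span K (Set.range fun i => (B i : L)) := by
    intro x _
    obtain ⟨r, s, t, hx⟩ := hc.gen (x / y)
    have : x = r • y + s • (θ * y) + t • (θ ^ 2 * y) := by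
      rw [div_eq_iff hy0] at hx
      rw [hx]
      simp only [Algebra.smul_def]
      ring
    rw [this]
    exact Submodule.add_mem _ (Submodule.add_mem _ (Submodule.smul_mem _ _ (hspanI _ hy))
      (Submodule.smul_mem _ _ (hspanI _ hθy))) (Submodule.smul_mem _ _ (hspanI _ hθ2y))
  have hcard : Fintype.card (Module.Free.ChooseBasisIndex k[X] M) = 3 := by
    rw [← Module.finrank_eq_card_basis (Module.Basis.mk hliK hspan), hc.rank]
  let E : Fin 3 ≃ Module.Free.ChooseBasisIndex k[X] M := (Fintype.equivFinOfCardEq hcard).symm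
  refine ⟨fun i => (B (E i) : L), hliK.comp E E.injective, fun i => (B (E i)).2, ?_⟩
  intro y hy
  obtain ⟨c, hc'⟩ := hsum y hy
  refine ⟨fun i => c (E i), ?_⟩
  rw [hc', ← E.sum_comp]

theorem sd (hI : S_INT) : S_SD := by
  intro k K L O _ _ _ _ _ _ _ _ _ _ _ _ _ _ _ a b θ h6 hc hs α hα hev
  obtain ⟨I, h0, hII⟩ := exists_sqrt α hα hev
  obtain ⟨e, hli, hmem, hbas⟩ := basis_I hI k K L O a b θ h6 hc hs I h0
  refine ⟨e, hli, ?_, ?_⟩
  · intro i j
    have h1 : e i * e j ∈ FractionalIdeal.spanSingleton O⁰ α := by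
      rw [← hII]
      exact FractionalIdeal.mul_mem_mul (hmem i) (hmem j)
    obtain ⟨z, hz⟩ := (FractionalIdeal.mem_spanSingleton _).1 h1
    rw [← hz, Algebra.smul_def, mul_div_cancel_right₀ _ hα]
    exact (IsIntegralClosure.isIntegral_iff (A := O)).2 ⟨z, rfl⟩
  · intro y hy
    apply hbas
    have h1 : FractionalIdeal.spanSingleton O⁰ y * I ≤ I * I := by
      rw [FractionalIdeal.mul_le]
      intro u hu w hw
      rw [hII]
      obtain ⟨z, hz⟩ := (FractionalIdeal.mem_spanSingleton _).1 hu
      obtain ⟨c, hc'⟩ := hbas w hw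
      have h2 : IsIntegral k[X] (w * y / α) := by
        rw [hc', Finset.sum_mul, Finset.sum_div]
        refine IsIntegral.sum _ fun i _ => ?_
        have : algebraMap k[X] L (c i) * e i * y / α = algebraMap k[X] L (c i) * (e i * y / α) := by ring
        rw [this]
        exact isIntegral_algebraMap.mul (hy i)
      obtain ⟨z', hz'⟩ := (IsIntegralClosure.isIntegral_iff (A := O)).1 h2
      refine (FractionalIdeal.mem_spanSingleton _).2 ⟨z * z', ?_⟩
      rw [← hz, Algebra.smul_def, Algebra.smul_def, map_mul, hz']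
      field_simp
    have h3 : FractionalIdeal.spanSingleton O⁰ y ≤ I := by
      have := mul_le_mul_left h1 I⁻¹
      rwa [mul_assoc, mul_inv_cancel₀ h0, mul_assoc, mul_inv_cancel₀ h0, mul_one, mul_one] at this
    exact FractionalIdeal.spanSingleton_le_iff_mem.1 h3

end Pool.Agent.N169.PP
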